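import Pool.Agent.U723.TD.Fin
import Pool.Agent.Results.MP_ec260d_nt.PolynomialRelations

/-!
# The transcendence degree of tuples of ordinates, in bounded complexity

Let `0 < γ_1 ≤ γ_2 ≤ …` be the ordinates of the nontrivial zeros of `ζ`. No hypothesis is assumed. Let `w` be arbitrary, let `r`
be large and `r log r ≤ log N`. The following holds for all the separated shifts `b_1, …, b_w ≤ r` (that is `b_i ≥ r ^ (1 / w)`
and `|b_i - b_j| ≥ r ^ (1 / w)`), and for all but `N / w` of the `n ≤ N`: all the real numbers `y_1, …, y_w` with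
`|γ_(n + b_i) - y_i| ≤ w / log γ_n`, for instance the ordinates `γ_(n + b_i)` themselves, have the following properties.

1. Let `c_1, …, c_w` be given real numbers (which do not depend on `n`), for instance `π`, `e`, or other ordinates. There are no
   real numbers `u_1, …, u_s`, `s < w`, not even depending on `n`, such that all the `y_i` are algebraic over
   `ℚ(c_1, …, c_w, u_1, …, u_s)` with nonzero equations the degrees and heights of which are at most `w`. If the `y_i` were
   algebraically dependent over `ℚ(c_1, …, c_w)`, then there would be such numbers (`w - 1` of the `y_i`), with equations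
   of some complexity: the assertion is the algebraic independence over `ℚ(c_1, …, c_w)` in the complexity `w`.
2. Let `P_1, …, P_w` be given polynomials in `X` whose coefficients are real polynomials in `u_1, …, u_s`, `s < w`, all
   degrees being at most `w`. There are no real `u_1, …, u_s` such that `y_i` is a root of `P_i(u, X) ≠ 0` for all `i`. For
   instance the `y_i` are not the coordinates of a point of a given polynomial surface of dimension less than `w` and degree
   at most `w`, however large its coefficients are.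
3. General position (for tuples `y_(a, l)` of numbers close to separated ordinates, `a ∈ A`, `l < m`, where `m ≤ w` and `A` is
   a set of exponents in `{0, …, w - 1} ^ m`): no nonzero real polynomial in `m` variables with exponents in `A`, not even
   one which depends on `n`, vanishes at all the `|A|` points `(y_(a, l))_l` of `ℝ ^ m`. So there is no recurrence
   `G(γ_(n + b_1), …, γ_(n + b_m)) = 0` at `|A|` places with arbitrary real coefficients. (The number `|A|` is optimal.)

The proof combines the starting result `PolynomialRelations` (a given nonzero real polynomial of bounded degree vanishes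
at few of the tuples) with an elimination theorem with a bound for the degree (`Pool.Agent.U723.TD.elim`, a count of
monomials), and, for 3, with the determinant of the values of the monomials, which is shown to be a nonzero polynomial by
evaluation at powers of two.
-/

set_option autoImplicit false

open Filter

namespace Pool.Agent.Results.MP_ec260d_nt.BoundedTranscendenceDegree

open Pool.Agent.Results.MP_ec260d_nt.PolynomialRelations (γ)

/-- `r ^ σ ≤ b i ≤ r`, and `|b i - b j| ≥ r ^ σ` for `i ≠ j` -/
def Separated {ι : Type} (r : ℕ) (σ : ℝ) (b : ι → ℕ) : Prop :=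
  (∀ i, (r : ℝ) ^ σ ≤ b i ∧ b i ≤ r) ∧ ∀ i j, i ≠ j → (r : ℝ) ^ σ ≤ |(b i : ℝ) - b j|

/-- `|γ (n + b i) - y i| ≤ ε / log (γ n)` for all `i`, that is, `ε / 2π` mean spacings -/
def Near (ε : ℝ) (n : ℕ) {ι : Type} (b : ι → ℕ) (y : ι → ℝ) : Prop :=
  ∀ i, |γ (n + b i) - y i| ≤ ε / Real.log (γ n)

/-- The degree of the polynomial `P` in `X` and the total degrees of its coefficients, which are integer polynomials in
the variables in `τ`, are at most `d`, and the integers occurring are at most `H` in absolute value. -/
def Simple {τ : Type} (d H : ℕ) (P : Polynomial (MvPolynomial τ ℤ)) : Prop :=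
  P.natDegree ≤ d ∧ ∀ j, (P.coeff j).totalDegree ≤ d ∧ ∀ m, |(P.coeff j).coeff m| ≤ H

/-- The polynomial in `X` obtained from `P` by inserting the real numbers `v i` is not zero, and `y` is a root. -/
def Root {τ : Type} (P : Polynomial (MvPolynomial τ ℤ)) (v : τ → ℝ) (y : ℝ) : Prop :=
  P.map (MvPolynomial.eval₂Hom (Int.castRingHom ℝ) v) ≠ 0 ∧
    (P.map (MvPolynomial.eval₂Hom (Int.castRingHom ℝ) v)).eval y = 0

/-- `y` is algebraic over the field generated by the `v i`, with a nonzero equation of degree at most `d` and height at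
most `H`. -/
def AlgebraicOver {τ : Type} (d H : ℕ) (v : τ → ℝ) (y : ℝ) : Prop :=
  ∃ P : Polynomial (MvPolynomial τ ℤ), Simple d H P ∧ Root P v y

/-- The `k` numbers `y i` are algebraic, with equations of degree and height at most `w`, over the field generated by the
`c j` and by fewer than `k` real numbers `u l`. -/
def Dependent {k J : ℕ} (w : ℕ) (c : Fin J → ℝ) (y : Fin k → ℝ) : Prop :=
  ∃ s < k, ∃ u : Fin s → ℝ, ∀ i, AlgebraicOver w w (Sum.elim c u) (y i)

/-- The degrees of the polynomials `P i` in `X` and the total degrees of their coefficients, which are real polynomials in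
`s` variables, are at most `w`. -/
def DegreeLe {s k : ℕ} (w : ℕ) (P : Fin k → Polynomial (MvPolynomial (Fin s) ℝ)) : Prop :=
  ∀ i, (P i).natDegree ≤ w ∧ ∀ j, ((P i).coeff j).totalDegree ≤ w

/-- For all `i`: the polynomial in `X` obtained from `P i` by inserting `u` is not zero, and `y i` is a root. -/
def Roots {s k : ℕ} (P : Fin k → Polynomial (MvPolynomial (Fin s) ℝ)) (u : Fin s → ℝ) (y : Fin k → ℝ) : Prop :=
  ∀ i, (P i).map (MvPolynomial.eval u) ≠ 0 ∧ ((P i).map (MvPolynomial.eval u)).eval (y i) = 0

/-- Some nonzero real polynomial in `m` variables, all of whose exponents are in `A`, vanishes at all the points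
`(y (a, l))_l`, `a ∈ A`. -/
def Special {m : ℕ} (A : Finset (Fin m → ℕ)) (y : A × Fin m → ℝ) : Prop :=
  ∃ G : MvPolynomial (Fin m) ℝ, G ≠ 0 ∧ (∀ e ∈ G.support, (fun l => e l) ∈ A) ∧
    ∀ a : A, MvPolynomial.eval (fun l => y (a, l)) G = 0

/-- For every `w ≥ 1` there is `r₀` such that for all `r ≥ r₀` and all `N ≥ 1` with `r log r ≤ log N`: (1) for all
`r ^ (1 / w)`-separated shifts `b_1, …, b_w ≤ r` and all real numbers `c_1, …, c_w`, for all but at most `N / w` of the `n ≤ N`
there are no `y_i` with `|γ_(n + b_i) - y_i| ≤ w / log γ_n` which are `Dependent`; (2) for such shifts and for all `s < w` and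
all systems `P_1, …, P_w` of degree at most `w` with real coefficients, for all but at most `N / w` of the `n ≤ N` there are no
`u_1, …, u_s` and no such `y_i` with `Roots P u y`; (3) for all `m ≤ w`, all sets `A` of exponents in `{0, …, w - 1} ^ m` and all
separated shifts `b (a, l) ≤ r`, for all but at most `N / w` of the `n ≤ N` there are no `y (a, l)` at a distance of at most
`w / log γ_n` from `γ_(n + b (a, l))` which are `Special`. -/
theorem result (w : ℕ) (hw : 1 ≤ w) :
    ∃ r₀ : ℕ, ∀ r : ℕ, r₀ ≤ r → ∀ N : ℕ, 1 ≤ N → r * Real.log r ≤ Real.log N →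
      (∀ b : Fin w → ℕ, Separated r (1 / w) b → ∀ c : Fin w → ℝ,
        w * {n : ℕ | (1 ≤ n ∧ n ≤ N) ∧ ∃ y : Fin w → ℝ, Near w n b y ∧ Dependent w c y}.ncard ≤ N) ∧
      (∀ b : Fin w → ℕ, Separated r (1 / w) b →
        ∀ s < w, ∀ P : Fin w → Polynomial (MvPolynomial (Fin s) ℝ), DegreeLe w P →
        w * {n : ℕ | (1 ≤ n ∧ n ≤ N) ∧ ∃ y : Fin w → ℝ, Near w n b y ∧
          ∃ u : Fin s → ℝ, Roots P u y}.ncard ≤ N) ∧
      (∀ m ≤ w, ∀ A : Finset (Fin m → ℕ), (∀ a ∈ A, ∀ l, a l < w) →
        ∀ b : A × Fin m → ℕ, Separated r (1 / w) b →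
        w * {n : ℕ | (1 ≤ n ∧ n ≤ N) ∧ ∃ y : A × Fin m → ℝ, Near w n b y ∧ Special A y}.ncard ≤ N) := by
  classical
  have hR : Pool.Agent.U723.TD.Rare γ := by
    refine Pool.Agent.U723.TD.rare_of fun k d σ η hσ hη => ?_
    obtain ⟨δ, hδ, r₀, h⟩ := Pool.Agent.Results.MP_ec260d_nt.PolynomialRelations.result k d σ η hσ hη
    refine ⟨δ, hδ, r₀, fun r hr N hN hrN b hb hbb P hP hPd => ?_⟩
    refine le_trans (le_of_eq ?_) (h r hr N hN hrN b hb hbb P hP hPd)
    rw [← Set.ncard_coe_finset]
    congr 2
    ext n
    rw [Finset.mem_coe, Finset.mem_filter, Finset.mem_Icc]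
    rfl
  obtain ⟨r₁, h1⟩ := Pool.Agent.U723.TD.good1 hR w hw
  obtain ⟨r₂, h2⟩ := Pool.Agent.U723.TD.good0 hR w hw
  obtain ⟨r₃, h3⟩ := Pool.Agent.U723.TD.good2 hR w hw
  exact ⟨r₁ + r₂ + r₃, fun r hr N hN hrN => ⟨h1 r (by omega) N hN hrN, h2 r (by omega) N hN hrN,
    h3 r (by omega) N hN hrN⟩⟩

end Pool.Agent.Results.MP_ec260d_nt.BoundedTranscendenceDegree
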