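import Pool.Agent.U544.LI.Inh2
import Pool.Agent.U544.LI.InhAlg2
import Pool.Agent.U544.LI.Zeta

/-!
# Polynomial relations of bounded degree and transcendental combinations of the ordinates

Let

`D(x) = (8/3) √x - ∑_n Λ(n) n^(-1/2) min(n/x, x/n)`,

a smoothed error term in the count of the prime powers near `x`. Fix any `λ > 0`. For a nonempty finite family of
positive reals `α_j` (the scales) and a finite family of reals `β_l` (the frequencies) look at the logarithmic mean

`M(X) = (1 / log X) ∫_1^X exp (λ ∑_j D(x^{α_j}) + λ ∑_l cos (β_l log x)) dx/x`.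

Let `Γ` be the set of the positive ordinates of the zeros of `ζ`, `Γ⁺` the part which comes from zeros on the critical
line, `m_γ` the multiplicities, `a_γ = 4 λ m_γ / (1 + γ²)`, `V = ∏_γ I_0(a_γ)`, `W = V^k I_0(λ)^t` with the numbers `k`
and `t` of the scales and of the frequencies. A relation is a finitely supported integral `n` with
`∑ n_{j,γ} α_j γ + ∑ n_l β_l = 0`, its weight is `w(n) = ∏ I_{|n_{j,γ}|}(a_γ) / I_0(a_γ) ∏ I_{|n_l|}(λ) / I_0(λ)`.
We prove, for every single `λ > 0`:

* RH holds if and only if `M` is bounded; if it holds then, with no assumption on the ordinates, `M(X)` tends to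
  `W ∑_{relations} w(n)`; unconditionally `limsup M ≥ W ∑_{n ∈ s} w(n)` for finite sets `s` of relations; for every
  set `T` of relations RH holds and there are no relations outside `T` if and only if
  `limsup M ≤ W ∑_{n ∈ T} w(n)`; RH holds and the numbers `α_j γ`, `β_l` are linearly independent over `ℚ` if and only
  if `limsup M ≤ W`;
* for a real number field `K` with a positive `ℚ`-basis `α`: RH holds and no nontrivial combination of elements of `Γ`
  with coefficients in `K` lies in `K` if and only if `limsup M ≤ W` for the scales and frequencies `α`; RH holds and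
  every nontrivial combination of elements of `Γ` with real algebraic coefficients is transcendental if and only if
  this holds for all tuples `α` of positive real algebraic numbers which are linearly independent over `ℚ`;
* for every `d ≥ 1`: RH holds and no nonzero rational polynomial of degree at most `d` vanishes at distinct elements
  of `Γ` if and only if for every nonempty finite set `A` of monomials of degree less than `d` in the ordinates, with
  the values of the monomials as scales and the single frequency `1`, `limsup M ≤ W ∑ w(n)`, the sum over the formal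
  relations (the `n` for which the polynomial `∑ n_{m,γ} X^m X_γ + n_1` is zero). So RH and Q1 hold if and only if this
  is true for every `A`.
-/

set_option autoImplicit false

open Filter Topology
open scoped Nat

namespace Pool.Agent.Results.MP_ec260d_nt.DegreesAndConstants

/-- `I_k(x) = ∑ (x/2)^(2j+k) / (j! (j+k)!)` -/
noncomputable def Bessel (k : ℕ) (x : ℝ) : ℝ := ∑' j : ℕ, (x / 2) ^ (2 * j + k) / ((j)! * (j + k)!)

/-- `D(x) = (8/3) √x - ∑_n Λ(n) n^(-1/2) min(n/x, x/n)` -/
noncomputable def D (x : ℝ) : ℝ :=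
  8 / 3 * √x - ∑' n : ℕ, ArithmeticFunction.vonMangoldt n / √n * min (n / x) (x / n)

/-- `M(X) = (1 / log X) ∫_1^X exp (λ ∑_j D(x^{α_j}) + λ ∑_l cos (β_l log x)) dx/x` -/
noncomputable def M {κ τ : Type} [Fintype κ] [Fintype τ] (α : κ → ℝ) (β : τ → ℝ) (lam X : ℝ) : ℝ :=
  (∫ x in (1:ℝ)..X, Real.exp (lam * (∑ j, D (x ^ α j) + ∑ l, Real.cos (β l * Real.log x))) / x) / Real.log X

/-- `Γ`, the set of the positive ordinates of the zeros of `ζ` -/
def Gamma : Set ℝ := {g | 0 < g ∧ ∃ β : ℝ, riemannZeta (β + g * Complex.I) = 0}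

/-- `Γ⁺`, the positive ordinates of the zeros on the critical line -/
def Gam : Type := {g : ℝ // 0 < g ∧ riemannZeta (1 / 2 + g * Complex.I) = 0}

/-- `a_γ = 4 λ m_γ / (1 + γ²)` with the multiplicity `m_γ` of `1/2 + iγ` -/
noncomputable def a (lam : ℝ) (g : Gam) : ℝ :=
  4 * lam * analyticOrderNatAt riemannZeta (1 / 2 + g.1 * Complex.I) / (1 + g.1 ^ 2)

/-- `V = ∏_γ I_0(a_γ)` -/
noncomputable def V (lam : ℝ) : ℝ := ∏' g : Gam, Bessel 0 (a lam g)

/-- `W = V^k I_0(λ)^t` -/
noncomputable def W (lam : ℝ) (k t : ℕ) : ℝ := V lam ^ k * Bessel 0 lam ^ t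

/-- the integral relations `∑ n_{j,γ} α_j γ + ∑ n_l β_l = 0` -/
def Relation {κ τ : Type} (α : κ → ℝ) (β : τ → ℝ) : Type :=
  {n : (κ × Gam) ⊕ τ →₀ ℤ // (n.sum fun p k => (k : ℝ) * Sum.elim (fun p : κ × Gam => α p.1 * p.2.1) β p) = 0}

/-- the arguments of the Bessel functions: `a_γ` at `(j, γ)`, and `λ` at `l` -/
noncomputable def arg {κ τ : Type} (lam : ℝ) : (κ × Gam) ⊕ τ → ℝ := Sum.elim (fun p => a lam p.2) fun _ => lam

/-- `w(n) = ∏ I_{|n_{j,γ}|}(a_γ) / I_0(a_γ) ∏ I_{|n_l|}(λ) / I_0(λ)` (the factors with `n_p = 0` are `1`) -/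
noncomputable def weight {κ τ : Type} (lam : ℝ) (n : (κ × Gam) ⊕ τ →₀ ℤ) : ℝ :=
  n.prod fun p k => Bessel k.natAbs (arg lam p) / Bessel 0 (arg lam p)

/-- no nontrivial combination of elements of `Γ` with coefficients in `K` lies in `K` -/
def IndependentOver (K : IntermediateField ℚ ℝ) : Prop :=
  ∀ c : Gamma →₀ K, c ≠ 0 → (c.sum fun g x => (x : ℝ) * (g : ℝ)) ∉ K

/-- every nontrivial combination of elements of `Γ` with real algebraic coefficients is transcendental -/
def AllTranscendental : Prop :=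
  ∀ c : Gamma →₀ algebraicClosure ℚ ℝ, c ≠ 0 → Transcendental ℚ (c.sum fun g x => (x : ℝ) * (g : ℝ))

/-- no nonzero rational polynomial of degree at most `d` vanishes at distinct elements of `Γ` -/
def NoPolynomial (d : ℕ) : Prop :=
  ∀ P : MvPolynomial Gamma ℚ, P.totalDegree ≤ d → MvPolynomial.aeval (fun g : Gamma => (g : ℝ)) P = 0 → P = 0

/-- the values of the monomials of a finite set, as scales -/
noncomputable def scales (A : Finset (Gam →₀ ℕ)) : A → ℝ := fun m => m.1.prod fun g k => g.1 ^ k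

/-- the single frequency `1` -/
def one : Unit → ℝ := fun _ => 1

/-- the formal relations: `∑ n_{m,γ} X^m X_γ + n_1` is the zero polynomial -/
def Formal (A : Finset (Gam →₀ ℕ)) : Set (Relation (scales A) one) :=
  {n | (n.1.sum fun p k => MvPolynomial.monomial
    (Sum.elim (fun p : A × Gam => p.1.1 + Finsupp.single p.2 1) (fun _ => 0) p) k) = (0 : MvPolynomial Gam ℤ)}

open Pool.Agent.U544.LI

/-- under RH all ordinates come from zeros on the critical line -/
lemma gamma_eq (h : RiemannHypothesis) : Gamma = {g : ℝ | 0 < g ∧ riemannZeta (1 / 2 + g * Complex.I) = 0} := by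
  ext g
  constructor
  · rintro ⟨h1, β, h2⟩
    refine ⟨h1, ?_⟩
    have h3 := h (β + g * Complex.I) h2 (by
      rintro ⟨n, hn⟩
      have := congrArg Complex.im hn
      simp at this
      exact h1.ne' this) (by
      intro h4
      have := congrArg Complex.im h4
      simp at this
      exact h1.ne' this)
    simp at h3
    have h4 : (β : ℂ) = 1 / 2 := by
      rw [h3]
      push_cast
      ring
    rwa [h4] at h2
  · rintro ⟨h1, h2⟩
    refine ⟨h1, 1 / 2, ?_⟩
    push_cast
    exact h2

/-- the bijection under RH -/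
noncomputable def eqv (h : RiemannHypothesis) : Gam ≃ Gamma := Equiv.setCongr (gamma_eq h).symm

section main

variable {lam : ℝ}

/-- the data for `ζ` -/
lemma data : ∃ _ : LD (ff 1) (Lq 1) 1, ∀ x, 0 < x → D x = Dd (Lq 1) 1 (Real.log x) := by
  refine ⟨ld_q, fun x hx => ?_⟩
  rw [Dd_log (ld_q (q := 1)).zero hx, D, mul_one]
  congr 1
  refine tsum_congr fun n => ?_
  rw [Lq_apply, if_pos (Subsingleton.elim _ _)]
  simp

lemma V_eq (lam : ℝ) : V lam = Real.exp (2 * lam * analyticOrderNatAt riemannZeta (1 / 2)) *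
    ∏' g : Ord riemannZeta, Ik 0 (ar riemannZeta lam g) := by
  rw [zeta_ord0, Nat.cast_zero, mul_zero, Real.exp_zero, one_mul]
  rfl

theorem scales_thm (hl : 0 < lam) {κ τ : Type} [Fintype κ] [Nonempty κ] [Fintype τ] {α : κ → ℝ} (hα : ∀ j, 0 < α j)
    (β : τ → ℝ) :
    (Multipliable fun g : Gam => Bessel 0 (a lam g)) ∧
    (Summable fun n : Relation α β => weight lam n.1) ∧
    (RiemannHypothesis ↔ ∃ C, ∀ᶠ X in atTop, M α β lam X ≤ C) ∧
    (RiemannHypothesis → Tendsto (M α β lam) atTop
      (𝓝 (W lam (Fintype.card κ) (Fintype.card τ) * ∑' n : Relation α β, weight lam n.1))) ∧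
    (∀ T : Set (Relation α β), RiemannHypothesis ∧ (∀ n, n ∈ T) ↔
      ∀ ε : ℝ, 0 < ε → ∀ᶠ X in atTop,
        M α β lam X < W lam (Fintype.card κ) (Fintype.card τ) * ∑' n : T, weight lam n.1.1 + ε) ∧
    (∀ (s : Finset (Relation α β)) (ε : ℝ), 0 < ε → ∃ᶠ X in atTop,
      W lam (Fintype.card κ) (Fintype.card τ) * ∑ n ∈ s, weight lam n.1 - ε < M α β lam X) := by
  obtain ⟨h, hD⟩ := data
  have := crit_inh h ff_zeta hl hD (V_eq lam) hα β
  rw [← rh_iff] at this
  exact this

theorem free_thm (hl : 0 < lam) {κ τ : Type} [Fintype κ] [Nonempty κ] [Fintype τ] {α : κ → ℝ} (hα : ∀ j, 0 < α j)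
    (β : τ → ℝ) :
    (RiemannHypothesis ∧ LinearIndependent ℚ (Sum.elim (fun p : κ × Gam => α p.1 * p.2.1) β)) ↔
      ∀ ε : ℝ, 0 < ε → ∀ᶠ X in atTop, M α β lam X < W lam (Fintype.card κ) (Fintype.card τ) + ε := by
  obtain ⟨h, hD⟩ := data
  have := crit_inh_free h ff_zeta hl hD (V_eq lam) hα β
  rw [← rh_iff] at this
  rw [linInd_sum (v := Sum.elim (fun p : κ × Gam => α p.1 * p.2.1) β)]
  exact this

end main

/-- **Polynomial relations of bounded degree and transcendental combinations of the ordinates.** -/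
theorem result : ∀ lam : ℝ, 0 < lam →
    (Multipliable fun g : Gam => Bessel 0 (a lam g)) ∧
    (∀ (κ τ : Type) [Fintype κ] [Nonempty κ] [Fintype τ] (α : κ → ℝ) (β : τ → ℝ), (∀ j, 0 < α j) →
      (Summable fun n : Relation α β => weight lam n.1) ∧
      (RiemannHypothesis ↔ ∃ C, ∀ᶠ X in atTop, M α β lam X ≤ C) ∧
      (RiemannHypothesis → Tendsto (M α β lam) atTop
        (𝓝 (W lam (Fintype.card κ) (Fintype.card τ) * ∑' n : Relation α β, weight lam n.1))) ∧
      (∀ (s : Finset (Relation α β)) (ε : ℝ), 0 < ε → ∃ᶠ X in atTop,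
        W lam (Fintype.card κ) (Fintype.card τ) * ∑ n ∈ s, weight lam n.1 - ε < M α β lam X) ∧
      (∀ T : Set (Relation α β), RiemannHypothesis ∧ (∀ n, n ∈ T) ↔
        ∀ ε : ℝ, 0 < ε → ∀ᶠ X in atTop,
          M α β lam X < W lam (Fintype.card κ) (Fintype.card τ) * ∑' n : T, weight lam n.1.1 + ε) ∧
      (RiemannHypothesis ∧ LinearIndependent ℚ (Sum.elim (fun p : κ × Gamma => α p.1 * (p.2 : ℝ)) β) ↔
        ∀ ε : ℝ, 0 < ε → ∀ᶠ X in atTop, M α β lam X < W lam (Fintype.card κ) (Fintype.card τ) + ε)) ∧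
    (∀ (K : IntermediateField ℚ ℝ) (κ : Type) [Fintype κ] (B : Module.Basis κ ℚ K), (∀ j, 0 < (B j : ℝ)) →
      (RiemannHypothesis ∧ IndependentOver K ↔ ∀ ε : ℝ, 0 < ε → ∀ᶠ X in atTop,
        M (fun j => (B j : ℝ)) (fun j => (B j : ℝ)) lam X < W lam (Fintype.card κ) (Fintype.card κ) + ε)) ∧
    (RiemannHypothesis ∧ AllTranscendental ↔
      ∀ (k : ℕ) (α : Fin (k + 1) → ℝ), (∀ j, 0 < α j) → (∀ j, IsAlgebraic ℚ (α j)) → LinearIndependent ℚ α →
        ∀ ε : ℝ, 0 < ε → ∀ᶠ X in atTop, M α α lam X < W lam (k + 1) (k + 1) + ε) ∧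
    (∀ d : ℕ, 0 < d → (RiemannHypothesis ∧ NoPolynomial d ↔
      ∀ A : Finset (Gam →₀ ℕ), A.Nonempty → (∀ m ∈ A, m.degree < d) → ∀ ε : ℝ, 0 < ε → ∀ᶠ X in atTop,
        M (scales A) one lam X < W lam A.card 1 * ∑' n : Formal A, weight lam n.1.1 + ε)) ∧
    (RiemannHypothesis ∧ AlgebraicIndependent ℚ (fun g : Gamma => ((g : ℝ) : ℂ)) ↔
      ∀ A : Finset (Gam →₀ ℕ), A.Nonempty → ∀ ε : ℝ, 0 < ε → ∀ᶠ X in atTop,
        M (scales A) one lam X < W lam A.card 1 * ∑' n : Formal A, weight lam n.1.1 + ε) := by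
  intro lam hl
  -- independence, for the two index sets
  have hLI : RiemannHypothesis → ∀ (K : IntermediateField ℚ ℝ),
      (LinearIndependent K (with1 fun g : Gamma => (g : ℝ)) ↔ LinearIndependent K (with1 fun g : Gam => g.1)) := by
    intro h K
    rw [← linearIndependent_equiv (Equiv.sumCongr (eqv h) (Equiv.refl Unit))]
    have e : (with1 fun g : Gamma => (g : ℝ)) ∘ Equiv.sumCongr (eqv h) (Equiv.refl Unit) =
        with1 fun g : Gam => g.1 := by
      funext p
      rcases p with g | u <;> rfl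
    rw [e]
  have hNP : RiemannHypothesis → ∀ d, (NoPolynomial d ↔
      ∀ P : MvPolynomial Gam ℚ, P.totalDegree ≤ d → MvPolynomial.aeval (fun g : Gam => g.1) P = 0 → P = 0) := by
    intro h d
    exact nopoly_equiv (eqv h) (fun g : Gam => g.1) (fun g : Gamma => (g : ℝ)) (fun _ => rfl) d
  have hpos : ∀ (A : Finset (Gam →₀ ℕ)) (m : A), 0 < scales A m := fun A m =>
    Finset.prod_pos fun g _ => pow_pos g.2.1 _
  have hA0 : RiemannHypothesis → ∀ A : Finset (Gam →₀ ℕ), A.Nonempty →
      ((∀ n : (A × Gam) ⊕ Unit →₀ ℤ,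
        (n.sum fun p k => (k : ℝ) * Sum.elim (fun p : A × Gam => mono (fun g : Gam => g.1) p.1.1 * p.2.1)
          (fun _ => 1) p) = 0 → poly n = 0) ↔
      ∀ ε : ℝ, 0 < ε → ∀ᶠ X in atTop,
        M (scales A) one lam X < W lam A.card 1 * ∑' n : Formal A, weight lam n.1.1 + ε) := by
    intro h A hA
    have : Nonempty A := hA.to_subtype
    have h2 := (scales_thm hl (hpos A) one).2.2.2.2.1 (Formal A)
    rw [Fintype.card_coe, Fintype.card_unit] at h2
    rw [← h2]
    constructor
    · intro h3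
      exact ⟨h, fun n => h3 n.1 n.2⟩
    · rintro ⟨-, h3⟩ n hn
      exact h3 ⟨n, hn⟩
  have hRA : ∀ A : Finset (Gam →₀ ℕ), A.Nonempty → (∀ ε : ℝ, 0 < ε → ∀ᶠ X in atTop,
      M (scales A) one lam X < W lam A.card 1 * ∑' n : Formal A, weight lam n.1.1 + ε) → RiemannHypothesis := by
    intro A hA h1
    have : Nonempty A := hA.to_subtype
    have h2 := (scales_thm hl (hpos A) one).2.2.2.2.1 (Formal A)
    rw [Fintype.card_coe, Fintype.card_unit] at h2
    exact (h2.2 h1).1
  have hdeg : ∀ d : ℕ, 0 < d → (RiemannHypothesis ∧ NoPolynomial d ↔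
      ∀ A : Finset (Gam →₀ ℕ), A.Nonempty → (∀ m ∈ A, m.degree < d) → ∀ ε : ℝ, 0 < ε → ∀ᶠ X in atTop,
        M (scales A) one lam X < W lam A.card 1 * ∑' n : Formal A, weight lam n.1.1 + ε) := by
    intro d hd
    constructor
    · rintro ⟨h, h1⟩ A hA hAd
      rw [hNP h, degree_iff _ hd] at h1
      exact (hA0 h A hA).1 (h1 A hA hAd)
    · intro h1
      have h2 := hRA {0} (Finset.singleton_nonempty _) (h1 {0} (Finset.singleton_nonempty _) (by
        intro m hm
        rw [Finset.mem_singleton] at hm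
        rw [hm, map_zero]
        exact hd))
      refine ⟨h2, ?_⟩
      rw [hNP h2, degree_iff _ hd]
      intro A hA hAd
      exact (hA0 h2 A hA).2 (h1 A hA hAd)
  refine ⟨(scales_thm (κ := Unit) (τ := Unit) hl (α := fun _ => 1) (fun _ => one_pos) (fun _ => 1)).1,
    fun κ τ _ _ _ α β hα => ?_, fun K κ _ B hB => ?_, ?_, hdeg, ?_⟩
  · obtain ⟨-, c1, c2, c3, c4, c5⟩ := scales_thm hl hα β
    refine ⟨c1, c2, c3, c5, c4, ?_⟩
    rw [← free_thm hl hα β]
    refine and_congr_right fun h => ?_
    rw [← linearIndependent_equiv (Equiv.sumCongr (Equiv.prodCongr (Equiv.refl κ) (eqv h)) (Equiv.refl τ))]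
    have e : (Sum.elim (fun p : κ × Gamma => α p.1 * (p.2 : ℝ)) β) ∘
        Equiv.sumCongr (Equiv.prodCongr (Equiv.refl κ) (eqv h)) (Equiv.refl τ) =
        Sum.elim (fun p : κ × Gam => α p.1 * p.2.1) β := by
      funext p
      rcases p with ⟨j, g⟩ | l <;> rfl
    rw [e]
  · have : Nonempty κ := B.index_nonempty
    rw [← free_thm hl hB (fun j => (B j : ℝ))]
    refine and_congr_right fun h => ?_
    have e := with1_iff K (fun g : Gamma => (g : ℝ))
    unfold IndependentOver
    rw [← e, hLI h, linInd_field B]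
    exact linInd_reidx (fun j => (B j : ℝ)) (fun g : Gam => g.1)
  · have e := baker_iff (fun g : Gamma => (g : ℝ))
    unfold AllTranscendental
    rw [← e]
    constructor
    · rintro ⟨h, h1⟩ k α hα hαa hαl
      rw [hLI h] at h1
      have h2 := (linInd_alg' _).1 h1 k α hα hαa hαl
      rw [linInd_reidx] at h2
      have h3 := (free_thm hl hα α).1 ⟨h, h2⟩
      rwa [Fintype.card_fin] at h3
    · intro h1
      have h2 : RiemannHypothesis := by
        have hone : LinearIndependent ℚ (fun _ : Fin 1 => (1:ℝ)) := by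
          rw [linearIndependent_unique_iff]
          exact one_ne_zero
        have h3 := h1 0 (fun _ => 1) (fun _ => one_pos) (fun _ => isAlgebraic_one) hone
        have h4 := (free_thm hl (α := fun _ : Fin (0 + 1) => (1:ℝ)) (fun _ => one_pos)
          (fun _ : Fin (0 + 1) => (1:ℝ))).2 (by
          rw [Fintype.card_fin]
          exact h3)
        exact h4.1
      refine ⟨h2, ?_⟩
      rw [hLI h2, linInd_alg']
      intro k α hα hαa hαl
      rw [linInd_reidx]
      have h3 := (free_thm hl hα α).2 (by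
        rw [Fintype.card_fin]
        exact h1 k α hα hαa hαl)
      exact h3.2
  · have hAI : RiemannHypothesis → (AlgebraicIndependent ℚ (fun g : Gamma => ((g : ℝ) : ℂ)) ↔
        ∀ d : ℕ, 0 < d → NoPolynomial d) := by
      intro h
      rw [← algebraicIndependent_equiv (eqv h)]
      have h1 := (Complex.ofRealAm.restrictScalars ℚ).algebraicIndependent_iff (x := fun g : Gam => g.1)
        (by exact Complex.ofReal_injective)
      have h2 : AlgebraicIndependent ℚ ((fun g : Gamma => ((g : ℝ) : ℂ)) ∘ eqv h) ↔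
          AlgebraicIndependent ℚ (fun g : Gam => g.1) := h1
      rw [h2, algInd_degree]
      exact forall_congr' fun d => forall_congr' fun _ => (hNP h d).symm
    constructor
    · rintro ⟨h, h1⟩ A hA
      rw [hAI h] at h1
      set d := A.sup (fun m => m.degree) + 1 with hd
      exact (hdeg d (Nat.succ_pos _)).1 ⟨h, h1 d (Nat.succ_pos _)⟩ A hA fun m hm =>
        Nat.lt_succ_of_le (Finset.le_sup (f := fun m : Gam →₀ ℕ => m.degree) hm)
    · intro h1
      have h2 := hRA {0} (Finset.singleton_nonempty _) (h1 {0} (Finset.singleton_nonempty _))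
      refine ⟨h2, ?_⟩
      rw [hAI h2]
      intro d hd
      exact ((hdeg d hd).2 fun A hA _ => h1 A hA).2

end Pool.Agent.Results.MP_ec260d_nt.DegreesAndConstants
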