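import Pool.Agent.U723.MR.Last
import Pool.Agent.Results.MP_ec260d_nt.PolynomialRelations

/-!
# Algebraic relations along runs of ordinates, with unknown parameters

Let `0 < γ_1 ≤ γ_2 ≤ …` be the ordinates of the nontrivial zeros of `ζ`. No hypothesis is assumed. We follow `w + 1` runs
`γ_(n + b_l + j)`, `0 ≤ j ≤ L`, of ordinates at the same time, where the shifts `b_0, …, b_w ≤ L` are at mutual distances
of at least `L ^ (1 / w)`. The number `w` is arbitrary, `L` is large and `3 L log L ≤ log N`. For `0 ≤ j ≤ L` let
`x_(j, 1), …, x_(j, w)` be given real numbers (which do not depend on `n`), for instance other ordinates, or ordinates of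
other L-functions, or the powers of `j`. The following holds for all but at most `N / w` of the `n ≤ N`.

1. For all real numbers `u_1, …, u_w`, which may depend on `n`, and for all but `L / w` of the places `j`, the numbers
   `γ_(n + b_0 + j), …, γ_(n + b_w + j)` are algebraically independent over `ℚ(u_1, …, u_w, x_(j, 1), …, x_(j, w))` up to the
   complexity `w`: there is no polynomial relation between them whose coefficients are polynomials in the `u_i` and
   the `x_(j, i)` with degrees and integer coefficients of at most `w`. The relation may be different for each `j`. In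
   particular at most `L / w` of the consecutive ordinates `γ_n, …, γ_(n + L)` are algebraic (in the complexity `w`)
   over a field with `w` generators, whatever these generators are.
2. For every real polynomial `P` of degree at most `w` in `X_1, …, X_w, Y_0, …, Y_w`, which may depend on `n` and whose
   coefficients may be arbitrarily large, the relation `P(x_(j, 1), …, x_(j, w), γ_(n + b_0 + j), …, γ_(n + b_w + j)) = 0` holds
   for at most `L / w` of the places `j` at which `P(x_(j, 1), …, x_(j, w), Y) ≠ 0`. In particular there is no polynomial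
   recurrence with constant coefficients, and none whose coefficients are polynomials in `j`, of bounded degree.

Both remain true for all numbers `y_l` within `δ √(log L)` mean spacings of the ordinates.

The proof: if it were false, then, since the sets of places have positive density, there would be a tuple of fixed
separated places such that for a positive proportion of the `n` the relations hold at these places with the same
unknown parameters (an average over all tuples). There are more places than parameters, so the parameters can be
eliminated with a bound for the degree (`Pool.Agent.U723.TD.elim`), after the relations have been solved for one of the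
ordinates (`Pool.Agent.U723.MR.tri`). This is a given polynomial relation of bounded degree between ordinates at separated
places, which holds for few `n` by the starting result `PolynomialRelations`.
-/

set_option autoImplicit false

namespace Pool.Agent.Results.MP_ec260d_nt.RelationsAlongRuns

open Pool.Agent.Results.MP_ec260d_nt.PolynomialRelations (γ)

/-- The `b l` are at most `L`, and at distances of at least `L ^ σ` from each other. -/
def Shifts (L : ℕ) (σ : ℝ) {k : ℕ} (b : Fin k → ℕ) : Prop :=
  (∀ l, b l ≤ L) ∧ ∀ l l', l ≠ l' → (L : ℝ) ^ σ ≤ |(b l : ℝ) - b l'|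

/-- For all `l` the number `y l` is within `ε / log (γ n)` (that is, `ε / 2π` mean spacings) of `γ (n + (j + b l))`. -/
def Near (ε : ℝ) (n j : ℕ) {k : ℕ} (b : Fin k → ℕ) (y : Fin k → ℝ) : Prop :=
  ∀ l, |γ (n + (j + b l)) - y l| ≤ ε / Real.log (γ n)

/-- `P` is a polynomial in the variables in `κ` of total degree at most `w`; its coefficients are integer polynomials in
the variables in `τ` of total degree at most `w`, and the integers occurring are at most `w` in absolute value. -/
def Simple {τ κ : Type} (w : ℕ) (P : MvPolynomial κ (MvPolynomial τ ℤ)) : Prop :=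
  P.totalDegree ≤ w ∧ ∀ e, (P.coeff e).totalDegree ≤ w ∧ ∀ e', |(P.coeff e).coeff e'| ≤ w

/-- The real polynomial obtained from `P` by inserting the numbers `v t` in the coefficients is not zero, and it
vanishes at `y`. -/
def Vanishes {τ κ : Type} (P : MvPolynomial κ (MvPolynomial τ ℤ)) (v : τ → ℝ) (y : κ → ℝ) : Prop :=
  MvPolynomial.map (MvPolynomial.eval₂Hom (Int.castRingHom ℝ) v) P ≠ 0 ∧
    MvPolynomial.eval y (MvPolynomial.map (MvPolynomial.eval₂Hom (Int.castRingHom ℝ) v) P) = 0

/-- The numbers `y l` are algebraically dependent over the field generated by the numbers `v t`, by means of a relation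
of complexity at most `w`. -/
def Dependent {τ κ : Type} (w : ℕ) (v : τ → ℝ) (y : κ → ℝ) : Prop :=
  ∃ P : MvPolynomial κ (MvPolynomial τ ℤ), Simple w P ∧ Vanishes P v y

/-- `P` is a polynomial in the variables in `κ` of total degree at most `w`; its coefficients are real polynomials in the
variables in `σ` of total degree at most `w`. -/
def DegreeLe {σ κ : Type} (w : ℕ) (P : MvPolynomial κ (MvPolynomial σ ℝ)) : Prop :=
  P.totalDegree ≤ w ∧ ∀ e, (P.coeff e).totalDegree ≤ w

/-- The real polynomial `P (x, ·)` obtained from `P` by inserting `x` in the coefficients is not zero, and it vanishes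
at `y`. -/
def VanishesAt {σ κ : Type} (P : MvPolynomial κ (MvPolynomial σ ℝ)) (x : σ → ℝ) (y : κ → ℝ) : Prop :=
  MvPolynomial.map (MvPolynomial.eval x) P ≠ 0 ∧ MvPolynomial.eval y (MvPolynomial.map (MvPolynomial.eval x) P) = 0

/-- For every `w ≥ 1` there are `δ > 0` and `L₀` such that for all `L ≥ L₀`, all `N ≥ 1` with `3 L log L ≤ log N`, all shifts
`b_0, …, b_w ≤ L` at mutual distances of at least `L ^ (1 / w)` and all real vectors `x_0, …, x_L ∈ ℝ ^ w`: (1) at most `N / w`
of the `n ≤ N` are such that for some `u ∈ ℝ ^ w` there are at least `L / w` places `0 ≤ j ≤ L` where some numbers `y_0, …, y_w` with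
`|γ_(n + j + b_l) - y_l| ≤ δ √(log L) / log γ_n` are `Dependent` over `u, x_j`; (2) at most `N / w` of the `n ≤ N` are such that for
some `P` of degree at most `w` there are at least `L / w` places `0 ≤ j ≤ L` where `P (x_j, ·) ≠ 0` vanishes at some such
`(y_0, …, y_w)`. -/
theorem result (w : ℕ) (hw : 1 ≤ w) :
    ∃ δ : ℝ, 0 < δ ∧ ∃ L₀ : ℕ, ∀ L : ℕ, L₀ ≤ L → ∀ N : ℕ, 1 ≤ N → 3 * L * Real.log L ≤ Real.log N →
      ∀ b : Fin (w + 1) → ℕ, Shifts L (1 / w) b → ∀ x : Fin (L + 1) → Fin w → ℝ,
      w * {n : ℕ | (1 ≤ n ∧ n ≤ N) ∧ ∃ u : Fin w → ℝ,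
        L ≤ w * {j : Fin (L + 1) | ∃ y, Near (δ * Real.sqrt (Real.log L)) n j b y ∧
          Dependent w (Sum.elim u (x j)) y}.ncard}.ncard ≤ N ∧
      w * {n : ℕ | (1 ≤ n ∧ n ≤ N) ∧ ∃ P : MvPolynomial (Fin (w + 1)) (MvPolynomial (Fin w) ℝ), DegreeLe w P ∧
        L ≤ w * {j : Fin (L + 1) | ∃ y, Near (δ * Real.sqrt (Real.log L)) n j b y ∧
          VanishesAt P (x j) y}.ncard}.ncard ≤ N := by
  classical
  have hR : Pool.Agent.U723.TD.Rare γ := by
    refine Pool.Agent.U723.TD.rare_of fun k d σ η hσ hη => ?_
    obtain ⟨δ, hδ, r₀, h⟩ := Pool.Agent.Results.MP_ec260d_nt.PolynomialRelations.result k d σ η hσ hη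
    refine ⟨δ, hδ, r₀, fun r hr N hN hrN b hb hbb P hP hPd => ?_⟩
    refine le_trans (le_of_eq ?_) (h r hr N hN hrN b hb hbb P hP hPd)
    rw [← Set.ncard_coe_finset]
    congr 2
    ext n
    rw [Finset.mem_coe, Finset.mem_filter, Finset.mem_Icc]
    rfl
  obtain ⟨δ, hδ, L₀, H⟩ := Pool.Agent.U723.MR.last hR w hw
  exact ⟨δ, hδ, L₀, fun L hL N hN hLN b hb x =>
    ⟨(H L hL N hN hLN).1 b hb x, (H L hL N hN hLN).2 b hb x⟩⟩

end Pool.Agent.Results.MP_ec260d_nt.RelationsAlongRuns
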