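import Pool.Agent.U544.LI.Multi3
import Pool.Agent.U544.LI.MultiAlg
import Pool.Agent.U544.LI.Zeta

/-!
# Primes at several scales and the algebraic relations between the ordinates

Let

`D(x) = (8/3) √x - ∑_n Λ(n) n^(-1/2) min(n/x, x/n)`,

a smoothed error term in the count of the prime powers near `x`. Fix any `λ > 0`. For a nonempty finite family of
positive reals `α_j` (the scales) look at the logarithmic mean

`M_α(X) = (1 / log X) ∫_1^X exp (λ ∑_j D(x^{α_j})) dx/x`.

Let `Γ` be the set of the positive ordinates of the zeros of `ζ`, `Γ⁺` the part which comes from zeros on the critical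
line, `m_γ` the multiplicities, `a_γ = 4 λ m_γ / (1 + γ²)`, `V = ∏_γ I_0(a_γ)`. A relation for `α` is a finitely
supported integral `n` with `∑ n_{j,γ} α_j γ = 0`, its weight is `w(n) = ∏ I_{|n_{j,γ}|}(a_γ) / I_0(a_γ)`. We prove,
for every single `λ > 0`, with `k` the number of the scales:

* RH holds if and only if `M_α` is bounded; if it holds then, with no assumption on the ordinates, `M_α(X)` tends to
  `V^k ∑_{relations for α} w(n)`; unconditionally `limsup M_α ≥ V^k ∑_{n ∈ s} w(n)` for finite sets `s` of relations;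
* for every set `T` of relations for `α`: RH holds and there are no relations for `α` outside `T` if and only if
  `limsup M_α ≤ V^k ∑_{n ∈ T} w(n)`;
* for a real number field `K` of degree `k` with a positive `ℚ`-basis `α`: RH holds and `Γ` is linearly independent
  over `K` if and only if `limsup M_α ≤ V^k`; so RH holds and `Γ` is linearly independent over the field of all
  real algebraic numbers if and only if this holds for all tuples of positive real algebraic numbers which are
  linearly independent over `ℚ`;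
* RH holds and `Γ` is algebraically independent over `ℚ` (Q1) if and only if for every nonempty finite set `A` of
  monomials in the ordinates, with the values of the monomials as scales, `limsup M_A ≤ V^{|A|} ∑ w(n)`, the sum over
  the formal relations (the `n` for which the polynomial `∑ n_{m,γ} X^m X_γ` is zero).

Proof. Under RH `∑_j D(x^{α_j})` is, up to `o(1)`, the sum of the `4 m_γ cos (α_j γ log x) / (1 + γ²)`. The mean value
of the exponential is the sum over the relations (`Pool.Agent.U544.LI`), all weights are positive. If `M_α` is bounded,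
then the Laplace transform of the positive part of `∑_j D(e^{α_j u})` converges for `Re z > 0`. Let `Θ` be the supremum
of the `Re w`, `w = ρ - 1/2`, and `Θ > 0`. The transform of the sum is `∑_j α_j^{-1} F(z/α_j)` with the transform `F` of
`D(e^u)`; to the right of `c = α Θ` with the second largest scale `α` only the terms with the largest scale `α_max` have
poles, at the `α_max w`, with positive residues at the real ones. By Landau's theorem the transform is analytic to the
right of `c`, so there are no such poles, and this contradicts the choice of `Θ`. The rest is algebra.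
-/

set_option autoImplicit false

open Filter Topology
open scoped Nat

namespace Pool.Agent.Results.MP_ec260d_nt.ScalesAndRelations

/-- `I_k(x) = ∑ (x/2)^(2j+k) / (j! (j+k)!)` -/
noncomputable def Bessel (k : ℕ) (x : ℝ) : ℝ := ∑' j : ℕ, (x / 2) ^ (2 * j + k) / ((j)! * (j + k)!)

/-- `D(x) = (8/3) √x - ∑_n Λ(n) n^(-1/2) min(n/x, x/n)` -/
noncomputable def D (x : ℝ) : ℝ :=
  8 / 3 * √x - ∑' n : ℕ, ArithmeticFunction.vonMangoldt n / √n * min (n / x) (x / n)

/-- `M_α(X) = (1 / log X) ∫_1^X exp (λ ∑_j D(x^{α_j})) dx/x` -/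
noncomputable def M {κ : Type} [Fintype κ] (α : κ → ℝ) (lam X : ℝ) : ℝ :=
  (∫ x in (1:ℝ)..X, Real.exp (lam * ∑ j, D (x ^ α j)) / x) / Real.log X

/-- `Γ`, the set of the positive ordinates of the zeros of `ζ` -/
def Gamma : Set ℝ := {g | 0 < g ∧ ∃ β : ℝ, riemannZeta (β + g * Complex.I) = 0}

/-- `Γ⁺`, the positive ordinates of the zeros on the critical line -/
def Gam : Type := {g : ℝ // 0 < g ∧ riemannZeta (1 / 2 + g * Complex.I) = 0}

/-- `a_γ = 4 λ m_γ / (1 + γ²)` with the multiplicity `m_γ` of `1/2 + iγ` -/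
noncomputable def a (lam : ℝ) (g : Gam) : ℝ :=
  4 * lam * analyticOrderNatAt riemannZeta (1 / 2 + g.1 * Complex.I) / (1 + g.1 ^ 2)

/-- `V = ∏_γ I_0(a_γ)` -/
noncomputable def V (lam : ℝ) : ℝ := ∏' g : Gam, Bessel 0 (a lam g)

/-- the integral relations `∑ n_{j,γ} α_j γ = 0` -/
def Relation {κ : Type} (α : κ → ℝ) : Type :=
  {n : κ × Gam →₀ ℤ // (n.sum fun p k => (k : ℝ) * (α p.1 * p.2.1)) = 0}

/-- `w(n) = ∏ I_{|n_{j,γ}|}(a_γ) / I_0(a_γ)` (the factors with `n_{j,γ} = 0` are `1`) -/
noncomputable def weight {κ : Type} (lam : ℝ) (n : κ × Gam →₀ ℤ) : ℝ :=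
  n.prod fun p k => Bessel k.natAbs (a lam p.2) / Bessel 0 (a lam p.2)

/-- the values of the monomials of a finite set, as scales -/
noncomputable def scales (A : Finset (Gam →₀ ℕ)) : A → ℝ := fun m => m.1.prod fun g k => g.1 ^ k

/-- the formal relations: `∑ n_{m,γ} X^m X_γ` is the zero polynomial -/
def Formal (A : Finset (Gam →₀ ℕ)) : Set (Relation (scales A)) :=
  {n | (n.1.sum fun p k => MvPolynomial.monomial (p.1.1 + Finsupp.single p.2 1) k) = (0 : MvPolynomial Gam ℤ)}

open Pool.Agent.U544.LI

/-- under RH all ordinates come from zeros on the critical line -/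
lemma gamma_eq (h : RiemannHypothesis) : Gamma = {g : ℝ | 0 < g ∧ riemannZeta (1 / 2 + g * Complex.I) = 0} := by
  ext g
  constructor
  · rintro ⟨h1, β, h2⟩
    refine ⟨h1, ?_⟩
    have h3 := h (β + g * Complex.I) h2 (by
      rintro ⟨n, hn⟩
      have := congrArg Complex.im hn
      simp at this
      exact h1.ne' this) (by
      intro h4
      have := congrArg Complex.im h4
      simp at this
      exact h1.ne' this)
    simp at h3
    have h4 : (β : ℂ) = 1 / 2 := by
      rw [h3]
      push_cast
      ring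
    rwa [h4] at h2
  · rintro ⟨h1, h2⟩
    refine ⟨h1, 1 / 2, ?_⟩
    push_cast
    exact h2

/-- the bijection under RH -/
noncomputable def eqv (h : RiemannHypothesis) : Gam ≃ Gamma := Equiv.setCongr (gamma_eq h).symm

section main

variable {lam : ℝ}

/-- the data for `ζ` -/
lemma data : ∃ _ : LD (ff 1) (Lq 1) 1, ∀ x, 0 < x → D x = Dd (Lq 1) 1 (Real.log x) := by
  refine ⟨ld_q, fun x hx => ?_⟩
  rw [Dd_log (ld_q (q := 1)).zero hx, D, mul_one]
  congr 1
  refine tsum_congr fun n => ?_
  rw [Lq_apply, if_pos (Subsingleton.elim _ _)]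
  simp

lemma V_eq (lam : ℝ) : V lam = Real.exp (2 * lam * analyticOrderNatAt riemannZeta (1 / 2)) *
    ∏' g : Ord riemannZeta, Ik 0 (ar riemannZeta lam g) := by
  rw [zeta_ord0, Nat.cast_zero, mul_zero, Real.exp_zero, one_mul]
  rfl

theorem scales_thm (hl : 0 < lam) {κ : Type} [Fintype κ] [Nonempty κ] {α : κ → ℝ} (hα : ∀ j, 0 < α j) :
    (Multipliable fun g : Gam => Bessel 0 (a lam g)) ∧
    (Summable fun n : Relation α => weight lam n.1) ∧
    (RiemannHypothesis ↔ ∃ C, ∀ᶠ X in atTop, M α lam X ≤ C) ∧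
    (RiemannHypothesis → Tendsto (M α lam) atTop
      (𝓝 (V lam ^ Fintype.card κ * ∑' n : Relation α, weight lam n.1))) ∧
    (∀ T : Set (Relation α), RiemannHypothesis ∧ (∀ n, n ∈ T) ↔
      ∀ ε : ℝ, 0 < ε → ∀ᶠ X in atTop, M α lam X < V lam ^ Fintype.card κ * ∑' n : T, weight lam n.1.1 + ε) ∧
    (∀ (s : Finset (Relation α)) (ε : ℝ), 0 < ε → ∃ᶠ X in atTop,
      V lam ^ Fintype.card κ * ∑ n ∈ s, weight lam n.1 - ε < M α lam X) := by
  obtain ⟨h, hD⟩ := data
  have := crit_scales h ff_zeta hl hD (V_eq lam) hα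
  rw [← rh_iff] at this
  exact this

theorem free_thm (hl : 0 < lam) {κ : Type} [Fintype κ] [Nonempty κ] {α : κ → ℝ} (hα : ∀ j, 0 < α j) :
    (RiemannHypothesis ∧ LinearIndependent ℚ fun p : κ × Gam => α p.1 * p.2.1) ↔
      ∀ ε : ℝ, 0 < ε → ∀ᶠ X in atTop, M α lam X < V lam ^ Fintype.card κ + ε := by
  obtain ⟨h, hD⟩ := data
  have := crit_scales_free h ff_zeta hl hD (V_eq lam) hα
  rw [← rh_iff] at this
  rw [linInd_sum (v := fun p : κ × Gam => α p.1 * p.2.1)]
  exact this

end main

/-- **Primes at several scales and the algebraic relations between the ordinates.** -/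
theorem result : ∀ lam : ℝ, 0 < lam →
    (Multipliable fun g : Gam => Bessel 0 (a lam g)) ∧
    (∀ (κ : Type) [Fintype κ] [Nonempty κ] (α : κ → ℝ), (∀ j, 0 < α j) →
      (Summable fun n : Relation α => weight lam n.1) ∧
      (RiemannHypothesis ↔ ∃ C, ∀ᶠ X in atTop, M α lam X ≤ C) ∧
      (RiemannHypothesis → Tendsto (M α lam) atTop
        (𝓝 (V lam ^ Fintype.card κ * ∑' n : Relation α, weight lam n.1))) ∧
      (∀ (s : Finset (Relation α)) (ε : ℝ), 0 < ε → ∃ᶠ X in atTop,
        V lam ^ Fintype.card κ * ∑ n ∈ s, weight lam n.1 - ε < M α lam X) ∧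
      (∀ T : Set (Relation α), RiemannHypothesis ∧ (∀ n, n ∈ T) ↔
        ∀ ε : ℝ, 0 < ε → ∀ᶠ X in atTop, M α lam X < V lam ^ Fintype.card κ * ∑' n : T, weight lam n.1.1 + ε)) ∧
    (∀ (K : IntermediateField ℚ ℝ) (κ : Type) [Fintype κ] (B : Module.Basis κ ℚ K), (∀ j, 0 < (B j : ℝ)) →
      (RiemannHypothesis ∧ LinearIndependent K (fun g : Gamma => (g : ℝ)) ↔
        ∀ ε : ℝ, 0 < ε → ∀ᶠ X in atTop, M (fun j => (B j : ℝ)) lam X < V lam ^ Fintype.card κ + ε)) ∧
    (RiemannHypothesis ∧ LinearIndependent (algebraicClosure ℚ ℝ) (fun g : Gamma => (g : ℝ)) ↔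
      ∀ (k : ℕ) (α : Fin (k + 1) → ℝ), (∀ j, 0 < α j) → (∀ j, IsAlgebraic ℚ (α j)) → LinearIndependent ℚ α →
        ∀ ε : ℝ, 0 < ε → ∀ᶠ X in atTop, M α lam X < V lam ^ (k + 1) + ε) ∧
    (RiemannHypothesis ∧ AlgebraicIndependent ℚ (fun g : Gamma => ((g : ℝ) : ℂ)) ↔
      ∀ A : Finset (Gam →₀ ℕ), A.Nonempty → ∀ ε : ℝ, 0 < ε → ∀ᶠ X in atTop,
        M (scales A) lam X < V lam ^ A.card * ∑' n : Formal A, weight lam n.1.1 + ε) := by
  intro lam hl
  -- independence, for the two index sets
  have hLI : RiemannHypothesis → ∀ (K : IntermediateField ℚ ℝ),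
      (LinearIndependent K (fun g : Gamma => (g : ℝ)) ↔ LinearIndependent K (fun g : Gam => g.1)) := by
    intro h K
    rw [← linearIndependent_equiv (eqv h)]
    rfl
  have hAI : RiemannHypothesis → (AlgebraicIndependent ℚ (fun g : Gamma => ((g : ℝ) : ℂ)) ↔
      AlgebraicIndependent ℚ (fun g : Gam => g.1)) := by
    intro h
    rw [← algebraicIndependent_equiv (eqv h)]
    have h1 := (Complex.ofRealAm.restrictScalars ℚ).algebraicIndependent_iff (x := fun g : Gam => g.1)
      (by exact Complex.ofReal_injective)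
    exact h1
  refine ⟨(scales_thm (κ := Unit) hl (α := fun _ => 1) fun _ => one_pos).1, fun κ _ _ α hα => ?_,
    fun K κ _ B hB => ?_, ?_, ?_⟩
  · obtain ⟨-, c1, c2, c3, c4, c5⟩ := scales_thm hl hα
    exact ⟨c1, c2, c3, c5, c4⟩
  · have : Nonempty κ := B.index_nonempty
    rw [← free_thm hl hB]
    refine and_congr_right fun h => ?_
    rw [hLI h, linInd_field B]
  · constructor
    · rintro ⟨h, h1⟩ k α hα hαa hαl
      rw [hLI h] at h1
      have h2 := (free_thm hl hα).1 ⟨h, (linInd_alg' _).1 h1 k α hα hαa hαl⟩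
      rwa [Fintype.card_fin] at h2
    · intro h1
      have h2 : RiemannHypothesis := by
        have hone : LinearIndependent ℚ (fun _ : Fin 1 => (1:ℝ)) := by
          rw [linearIndependent_unique_iff]
          exact one_ne_zero
        have h3 := h1 0 (fun _ => 1) (fun _ => one_pos) (fun _ => isAlgebraic_one) hone
        have h4 := (free_thm hl (α := fun _ : Fin (0 + 1) => (1:ℝ)) (fun _ => one_pos)).2 (by
          rw [Fintype.card_fin]
          exact h3)
        exact h4.1
      refine ⟨h2, ?_⟩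
      rw [hLI h2, linInd_alg']
      intro k α hα hαa hαl
      have h3 := (free_thm hl hα).2 (by
        rw [Fintype.card_fin]
        exact h1 k α hα hαa hαl)
      exact h3.2
  · have hpos : ∀ (A : Finset (Gam →₀ ℕ)) (m : A), 0 < scales A m := fun A m =>
      Finset.prod_pos fun g _ => pow_pos g.2.1 _
    constructor
    · rintro ⟨h, h1⟩ A hA ε hε
      have : Nonempty A := hA.to_subtype
      rw [hAI h, algInd_iff'] at h1
      have h2 := (scales_thm hl (hpos A)).2.2.2.2.1 (Formal A)
      have h3 := h2.1 ⟨h, fun n => h1 A hA n.1 n.2⟩ ε hε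
      rwa [Fintype.card_coe] at h3
    · intro h1
      have h2 : ∀ A : Finset (Gam →₀ ℕ), A.Nonempty → RiemannHypothesis ∧ ∀ n, n ∈ Formal A := by
        intro A hA
        have : Nonempty A := hA.to_subtype
        refine ((scales_thm hl (hpos A)).2.2.2.2.1 (Formal A)).2 ?_
        rw [Fintype.card_coe]
        exact h1 A hA
      have hR := (h2 {0} (Finset.singleton_nonempty _)).1
      refine ⟨hR, ?_⟩
      rw [hAI hR, algInd_iff']
      exact fun A hA n hn => (h2 A hA).2 ⟨n, hn⟩

end Pool.Agent.Results.MP_ec260d_nt.ScalesAndRelations
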